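import Pool.Agent.H430Z.KleeLower

namespace Pool.Agent.Results.MP_dd1a29_co.AHeightsDiffer

open Pool.Agent.H430Z.Klee

/-- For simple 6-polytopes with 8 facets the largest simplex height is at most 14 and the largest
steep height is 15, so `M(ζ, 6, 8) ≠ M(τ, 6, 8)`. -/
theorem result : maxSimplex 6 8 ≤ 14 ∧ maxSteep 6 8 = 15 :=
  main

end Pool.Agent.Results.MP_dd1a29_co.AHeightsDiffer
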